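import Pool.Agent.K1H73.LS.Blk

/-!
# The exact positions of the `n` with `n` and `2 n + e` almost prime in short blocks, uniformly in `e`

Uniformly in ALL odd `e` with `|e| ≤ X ^ C` (the question is about `e = -1`), in all progressions `n = q m + b` with
`q, b ≤ X ^ C` and in all intervals of length at least `X ^ θ`: the number of the `m` for which the good integers (`n`
and `2 n + e` have no prime factor `≤ z = X ^ (1 / r)`) in `[m, m + T]` are EXACTLY `m + h`, `h ∈ J`, for every `J` of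
bounded size with `0 ∈ J` and all `T` up to a constant times the mean distance: the density of the pattern `J` times
`exp (- T V)`.

The exact block law for systems of polynomials is the theorem `blocks'` of `Pool.Agent.R463.PS` of the starting files.
New here: the version for finite sets of linear forms (`K1H73.LS.Blk`, with the conditions of that theorem verified
uniformly), in progressions, and the application.
-/

set_option autoImplicit false

namespace Pool.Agent.Results.MP_39a890_nt.ExactBlocks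

open Finset Filter
open Pool.Agent.K1H73

/-- the product `n (2 n + e)` -/
def prodAt (e : ℤ) (n : ℕ) : ℤ := n * (2 * n + e)

/-- neither `n` nor `2 n + e`, where `n = q m + b`, has a prime factor `≤ z` -/
def Good (e : ℤ) (q b z m : ℕ) : Prop := ∀ l : ℕ, l.Prime → l ≤ z → ¬ (l : ℤ) ∣ prodAt e (q * m + b)

/-- the number of the classes `n` modulo the prime `l` with `l ∣ n (2 n + e)` (for odd `e`) -/
def rho (e : ℤ) (l : ℕ) : ℕ := if l = 2 ∨ (l : ℤ) ∣ e then 1 else 2

/-- the density of the good integers: the product over the primes `l ≤ z` which do not divide `q` -/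
noncomputable def V (e : ℤ) (q z : ℕ) : ℝ :=
  ∏ l ∈ (Finset.range (z + 1)).filter Nat.Prime, (1 - ((if l ∣ q then 0 else rho e l : ℕ) : ℝ) / l)

open Classical in
/-- the number of the classes `m` modulo `l` such that `l` divides `n (2 n + e)`, `n = q (m + h) + b`, for some `h ∈ J` -/
noncomputable def rhoJ (e : ℤ) (q b : ℕ) (J : Finset ℕ) (l : ℕ) : ℕ :=
  ((Finset.range l).filter (fun m : ℕ => ∃ h ∈ J, (l : ℤ) ∣ prodAt e (q * (m + h) + b))).card

/-- the density of the pattern `J` -/
noncomputable def VJ (e : ℤ) (q b : ℕ) (J : Finset ℕ) (z : ℕ) : ℝ :=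
  ∏ l ∈ (Finset.range (z + 1)).filter Nat.Prime, (1 - (rhoJ e q b J l : ℝ) / l)

open Classical in
/-- the number of the `m` in `(u, u + Y]` for which the good integers in `[m, m + T]` are exactly the `m + h`,
`h ∈ J` -/
noncomputable def Blocks (e : ℤ) (q b z : ℕ) (J : Finset ℕ) (T u Y : ℕ) : ℕ :=
  ((Ioc u (u + Y)).filter (fun m => ∀ h ≤ T, Good e q b z (m + h) ↔ h ∈ J)).card

/-- the forms -/
def T (e : ℤ) : Finset (ℤ × ℤ) := {((1 : ℤ), (0 : ℤ)), ((2 : ℤ), e)}

lemma T_card (e : ℤ) : (T e).card = 2 := by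
  unfold T
  rw [card_insert_of_notMem, card_singleton]
  rw [mem_singleton]
  intro h
  have : (1 : ℤ) = 2 := congrArg Prod.fst h
  norm_num at this

lemma T_iff (e : ℤ) {p : ℕ} (hp : p.Prime) (n : ℕ) :
    (∃ f ∈ T e, (p : ℤ) ∣ f.1 * (n : ℤ) + f.2) ↔ (p : ℤ) ∣ prodAt e n := by
  unfold prodAt
  rw [(Nat.prime_iff_prime_int.1 hp).dvd_mul]
  unfold T
  constructor
  · rintro ⟨f, hf, hd⟩
    rw [mem_insert, mem_singleton] at hf
    rcases hf with rfl | rfl
    · left
      have : (p : ℤ) ∣ (1 : ℤ) * n + 0 := hd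
      rwa [one_mul, add_zero] at this
    · exact Or.inr hd
  · rintro (h | h)
    · refine ⟨((1 : ℤ), (0 : ℤ)), by simp, ?_⟩
      show (p : ℤ) ∣ (1 : ℤ) * n + 0
      rwa [one_mul, add_zero]
    · exact ⟨((2 : ℤ), e), by simp, h⟩

lemma good_eq (e : ℤ) (q b z : ℕ) : Good e q b z = Pool.Agent.R490.LZ.Ro (LS.sb q b (T e)) z := by
  funext m
  apply propext
  rw [LS.ro_sb]
  unfold Good Pool.Agent.R490.LZ.Ro
  constructor
  · intro h p hp hpz f hf hd
    exact h p hp hpz ((T_iff e hp _).1 ⟨f, hf, hd⟩)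
  · intro h p hp hpz hd
    obtain ⟨f, hf, hd⟩ := (T_iff e hp _).2 hd
    exact h p hp hpz f hf hd

/-- the number of the zeros -/
lemma om_eq {e : ℤ} (he : Odd e) {l : ℕ} (hl : l.Prime) :
    RDW.om (LS.GT (T e)) l = if l = 2 ∨ (l : ℤ) ∣ e then 1 else 2 := by
  classical
  have hlpos := hl.pos
  have key : ∀ n : ℕ, (l : ℤ) ∣ LS.GT (T e) n ↔ (l : ℤ) ∣ (n : ℤ) ∨ (l : ℤ) ∣ 2 * (n : ℤ) + e := by
    intro n
    rw [LS.dvd_GT hl, T_iff e hl]
    unfold prodAt
    exact (Nat.prime_iff_prime_int.1 hl).dvd_mul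
  unfold RDW.om
  have h0 : ∀ n < l, (l : ℤ) ∣ (n : ℤ) → n = 0 := by
    intro n hn hd
    exact Nat.eq_zero_of_dvd_of_lt (by exact_mod_cast hd) hn
  split_ifs with h
  · have e1 : (range l).filter (fun n : ℕ => (l : ℤ) ∣ LS.GT (T e) n) = {0} := by
      ext n
      rw [mem_filter, mem_range, mem_singleton, key]
      constructor
      · rintro ⟨h1, h2 | h2⟩
        · exact h0 n h1 h2
        · rcases h with h | h
          · subst h
            exfalso
            obtain ⟨u, hu⟩ := he
            obtain ⟨v, hv⟩ := h2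
            push_cast at hv
            omega
          · have h3 : (l : ℤ) ∣ 2 * (n : ℤ) := (dvd_add_left h).1 h2
            rcases (Nat.prime_iff_prime_int.1 hl).dvd_mul.1 h3 with h4 | h4
            · have h5 : l ∣ 2 := by exact_mod_cast h4
              have h6 : l = 2 := (Nat.prime_dvd_prime_iff_eq hl Nat.prime_two).1 h5
              exfalso
              obtain ⟨u, hu⟩ := he
              obtain ⟨v, hv⟩ := h
              rw [h6] at hv
              push_cast at hv
              omega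
            · exact h0 n h1 h4
      · rintro rfl
        exact ⟨hlpos, Or.inl (by simp)⟩
    rw [e1, card_singleton]
  · push Not at h
    obtain ⟨h2, hle⟩ := h
    -- the other zero
    have hcop : IsCoprime (2 : ℤ) (l : ℤ) := by
      have : Nat.Coprime 2 l := (Nat.coprime_primes Nat.prime_two hl).2 (fun h => h2 h.symm)
      exact_mod_cast Nat.isCoprime_iff_coprime.2 this
    obtain ⟨x, y, hxy⟩ := hcop
    have hlZ : (0 : ℤ) < l := by exact_mod_cast hlpos
    obtain ⟨n1, hn1⟩ : ∃ n1 : ℕ, (n1 : ℤ) = (-(x * e)) % l :=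
      ⟨((-(x * e)) % l).toNat, Int.toNat_of_nonneg (Int.emod_nonneg _ hlZ.ne')⟩
    have hn1l : n1 < l := by
      have := Int.emod_lt_of_pos (-(x * e)) hlZ
      rw [← hn1] at this
      exact_mod_cast this
    have hz1 : (l : ℤ) ∣ 2 * (n1 : ℤ) + e := by
      have h3 : (l : ℤ) ∣ -(x * e) - (-(x * e)) % l := Int.dvd_self_sub_emod
      rw [← hn1] at h3
      obtain ⟨v, hv⟩ := h3
      have h4 : (n1 : ℤ) = -(x * e) - l * v := by linarith
      rw [h4]
      refine ⟨y * e - 2 * v, ?_⟩
      have h5 : x * 2 = 1 - y * l := by linarith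
      have : 2 * (-(x * e) - (l : ℤ) * v) + e = -((x * 2) * e) - 2 * l * v + e := by ring
      rw [this, h5]
      ring
    have hn10 : n1 ≠ 0 := by
      rintro rfl
      apply hle
      simpa using hz1
    have e1 : (range l).filter (fun n : ℕ => (l : ℤ) ∣ LS.GT (T e) n) = {0, n1} := by
      ext n
      rw [mem_filter, mem_range, mem_insert, mem_singleton, key]
      constructor
      · rintro ⟨h1, h3 | h3⟩
        · exact Or.inl (h0 n h1 h3)
        · right
          have h4 : (l : ℤ) ∣ 2 * ((n : ℤ) - n1) := by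
            have := dvd_sub h3 hz1
            have e2 : 2 * (n : ℤ) + e - (2 * (n1 : ℤ) + e) = 2 * ((n : ℤ) - n1) := by ring
            rwa [e2] at this
          rcases (Nat.prime_iff_prime_int.1 hl).dvd_mul.1 h4 with h5 | h5
          · have h6 : l ∣ 2 := by exact_mod_cast h5
            exact absurd ((Nat.prime_dvd_prime_iff_eq hl Nat.prime_two).1 h6) h2
          · have h6 : (n1 : ℤ) ≡ (n : ℤ) [ZMOD (l : ℤ)] := Int.modEq_iff_dvd.2 h5
            have h7 : n1 ≡ n [MOD l] := Int.natCast_modEq_iff.1 h6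
            have h8 : n1 % l = n % l := h7
            rw [Nat.mod_eq_of_lt hn1l, Nat.mod_eq_of_lt h1] at h8
            exact h8.symm
      · rintro (rfl | rfl)
        · exact ⟨hlpos, Or.inl (by simp)⟩
        · exact ⟨hn1l, Or.inr hz1⟩
    rw [e1, card_insert_of_notMem, card_singleton]
    rw [mem_singleton]
    exact fun h => hn10 h.symm

/-- few prime factors -/
theorem few {X z r C : ℕ} (hr : 1 ≤ r) (hC : C ≠ 0) (hz : z = ⌊(X : ℝ) ^ (1 / (r : ℝ))⌋₊) (hz1 : 1 ≤ z) {x : ℕ}
    (hx0 : x ≠ 0) (hx : x ≤ X ^ C + 1) (h : ∀ l : ℕ, l.Prime → l ≤ z → ¬ l ∣ x) :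
    x.primeFactorsList.length ≤ r * C := by
  by_contra hcon
  rw [not_le] at hcon
  have h1 : ∀ l ∈ x.primeFactorsList, z + 1 ≤ l := by
    intro l hl
    by_contra h2
    exact h l (Nat.prime_of_mem_primeFactorsList hl) (by omega) (Nat.dvd_of_mem_primeFactorsList hl)
  have h2 : (z + 1) ^ x.primeFactorsList.length ≤ x := by
    have h3 : (z + 1) ^ x.primeFactorsList.length ≤ x.primeFactorsList.prod :=
      List.pow_card_le_prod _ _ h1
    rwa [Nat.prod_primeFactorsList hx0] at h3
  have h4 : (z + 1) ^ (r * C + 1) ≤ (z + 1) ^ x.primeFactorsList.length := Nat.pow_le_pow_right (by omega) (by omega)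
  have h5 : (X : ℝ) < ((z + 1 : ℕ) : ℝ) ^ r := by
    have h6 : (X : ℝ) ^ (1 / (r : ℝ)) < ((z + 1 : ℕ) : ℝ) := by
      rw [hz]
      push_cast
      exact Nat.lt_floor_add_one _
    have h7 : ((X : ℝ) ^ (1 / (r : ℝ))) ^ r < ((z + 1 : ℕ) : ℝ) ^ r :=
      pow_lt_pow_left₀ h6 (by positivity) (by omega)
    rwa [← Real.rpow_natCast, ← Real.rpow_mul (Nat.cast_nonneg X), one_div,
      inv_mul_cancel₀ (by positivity), Real.rpow_one] at h7
  have h6 : X < (z + 1) ^ r := by exact_mod_cast h5
  have h7 : X ^ C < (z + 1) ^ (r * C) := by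
    rw [pow_mul]
    exact Nat.pow_lt_pow_left h6 hC
  have h8 : (z + 1) ^ (r * C + 1) = (z + 1) ^ (r * C) * (z + 1) := pow_succ _ _
  have h9 : (z + 1) ^ (r * C) * 2 ≤ (z + 1) ^ (r * C) * (z + 1) := Nat.mul_le_mul_left _ (by omega)
  omega

lemma T_adm {e : ℤ} (he : Odd e) (p : ℕ) (hp : p.Prime) : ∃ n : ℕ, ∀ f ∈ T e, ¬ (p : ℤ) ∣ f.1 * n + f.2 := by
  classical
  by_contra hcon
  push Not at hcon
  have h1 : RDW.om (LS.GT (T e)) p = p := by
    unfold RDW.om
    rw [Finset.filter_true_of_mem, card_range]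
    intro n _
    obtain ⟨f, hf, hd⟩ := hcon n
    exact (LS.dvd_GT hp n).2 ⟨f, hf, hd⟩
  rw [om_eq he hp] at h1
  have h2 := hp.two_le
  split_ifs at h1 with h
  · omega
  · apply h
    left
    omega

lemma co_of {e : ℤ} {q b : ℕ} (hco : IsCoprime (prodAt e b) (q : ℤ)) :
    ∀ p : ℕ, p.Prime → p ∣ q → ∀ f ∈ T e, ¬ (p : ℤ) ∣ f.1 * b + f.2 := by
  intro p hp hpq f hf hd
  have h1 := (T_iff e hp b).1 ⟨f, hf, hd⟩
  have h2 := hco.isUnit_of_dvd' h1 (show (p : ℤ) ∣ (q : ℤ) by exact_mod_cast hpq)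
  rw [Int.isUnit_iff_natAbs_eq, Int.natAbs_natCast] at h2
  exact hp.one_lt.ne' h2

open Classical in
lemma nu_eq {e : ℤ} (he : Odd e) {q b : ℕ} (hco : IsCoprime (prodAt e b) (q : ℤ)) {l : ℕ} (hl : l.Prime) :
    ((Finset.range l).filter (fun m : ℕ => ∃ f ∈ LS.sb q b (T e), (l : ℤ) ∣ f.1 * m + f.2)).card =
      if l ∣ q then 0 else rho e l := by
  rw [LS.sb_nu hl (fun h => co_of hco l hl h), om_eq he hl]
  rfl

lemma V_eq {e : ℤ} (he : Odd e) {q b : ℕ} (hco : IsCoprime (prodAt e b) (q : ℤ)) (z : ℕ) :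
    Pool.Agent.R490.LZ.De (LS.sb q b (T e)) z = V e q z := by
  classical
  unfold Pool.Agent.R490.LZ.De V
  apply Finset.prod_congr rfl
  intro l hl
  have h1 := nu_eq he hco (mem_filter.1 hl).2
  rw [← h1]


open Classical in
lemma VJ_eq {e : ℤ} (q b : ℕ) (J : Finset ℕ) (z : ℕ) : LS.DeJ (LS.sb q b (T e)) J z = VJ e q b J z := by
  unfold LS.DeJ VJ
  apply Finset.prod_congr rfl
  intro l hl
  have hlp := (mem_filter.1 hl).2
  have : LS.nuJ (LS.sb q b (T e)) J l = rhoJ e q b J l := by
    unfold LS.nuJ rhoJ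
    congr 1
    apply Finset.filter_congr
    intro m _
    apply exists_congr
    intro h
    apply and_congr_right
    intro _
    rw [LS.sb_dvd, T_iff e hlp]
  rw [this]

/-- **The exact positions of the good integers in short blocks, uniformly in `e`.** Let `C`, `K`, `x₀` and
`θ, ε > 0`. There is `r0` such that for all `r ≥ r0` and all large `X`, `z = X ^ (1 / r)` (integer part), for ALL odd `e`
with `|e| ≤ X ^ C`, all `1 ≤ q ≤ X ^ C` and all `b ≤ X ^ C` with `b (2 b + e)` prime to `q`: (1) if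
`1 ≤ n = q m + b ≤ X ^ C`, `2 n + e ≠ 0` and `m` is good then `n` and `|2 n + e|` have at most `r (C + 2)` prime
factors, and `m` is good if `n` and `|2 n + e|` are primes larger than `z`; (2) for all intervals `(u, u + Y]` with
`Y ≥ X ^ θ`, all sets `J` of at most `K` natural numbers with `0 ∈ J` and all `T ≥ max J` with `T V ≤ x₀`: the number of
the `m` in the interval for which the good integers in `[m, m + T]` are exactly the `m + h`, `h ∈ J`, is
`Y VJ exp (- T V)`, up to the factor `1 ± ε`. -/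
theorem result (C K : ℕ) (θ x0 ε : ℝ) (hθ : 0 < θ) (hε : 0 < ε) :
    ∃ r0 : ℕ, 1 ≤ r0 ∧ ∀ r : ℕ, r0 ≤ r → ∀ᶠ X : ℕ in atTop, ∀ z : ℕ, z = ⌊(X : ℝ) ^ (1 / (r : ℝ))⌋₊ →
      ∀ e : ℤ, Odd e → |e| ≤ (X : ℤ) ^ C →
      ∀ q b : ℕ, 1 ≤ q → q ≤ X ^ C → b ≤ X ^ C → IsCoprime (prodAt e b) (q : ℤ) →
        (∀ m : ℕ, 1 ≤ q * m + b → q * m + b ≤ X ^ C → 2 * ((q * m + b : ℕ) : ℤ) + e ≠ 0 →
          (Good e q b z m → (q * m + b).primeFactorsList.length ≤ r * (C + 2) ∧
            (2 * ((q * m + b : ℕ) : ℤ) + e).natAbs.primeFactorsList.length ≤ r * (C + 2)) ∧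
          ((q * m + b).Prime → z < q * m + b → (2 * ((q * m + b : ℕ) : ℤ) + e).natAbs.Prime →
            z < (2 * ((q * m + b : ℕ) : ℤ) + e).natAbs → Good e q b z m)) ∧
        ∀ u Y : ℕ, (X : ℝ) ^ θ ≤ Y → ∀ J : Finset ℕ, J.card ≤ K → 0 ∈ J → ∀ T : ℕ, (∀ h ∈ J, h ≤ T) →
          T * V e q z ≤ x0 →
          |(Blocks e q b z J T u Y : ℝ) - Y * VJ e q b J z * Real.exp (-(T * V e q z))| ≤
            ε * (Y * VJ e q b J z * Real.exp (-(T * V e q z))) := by
  classical
  obtain ⟨r0, h0⟩ := LS.blkL 2 (2 * C + 3) K (by omega) 1 θ (by norm_num) hθ x0 ε hε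
  refine ⟨max r0 1, le_max_right _ _, ?_⟩
  intro r hr
  have hr1 : 1 ≤ r := (le_max_right _ _).trans hr
  have hb2 : ∀ᶠ n : ℕ in atTop, (1 : ℝ) ≤ (n : ℝ) ^ (1 / (r : ℝ)) :=
    ((tendsto_rpow_atTop (by positivity)).comp tendsto_natCast_atTop_atTop).eventually_ge_atTop _
  filter_upwards [h0 r ((le_max_left _ _).trans hr), hb2, eventually_ge_atTop 2] with X hX hX1 hX2
  intro z hz e he heX q b hq1 hqX hbX hco
  have hz1 : 1 ≤ z := by
    rw [hz]
    exact Nat.le_floor (by exact_mod_cast hX1)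
  have hTco : ∀ p : ℕ, p.Prime → p ∣ q → ∀ f ∈ T e, ¬ (p : ℤ) ∣ f.1 * b + f.2 := by
    intro p hp hpq f hf hd
    have h1 := (T_iff e hp b).1 ⟨f, hf, hd⟩
    have h2 := hco.isUnit_of_dvd' h1 (show (p : ℤ) ∣ (q : ℤ) by exact_mod_cast hpq)
    rw [Int.isUnit_iff_natAbs_eq, Int.natAbs_natCast] at h2
    exact hp.one_lt.ne' h2
  have hXC1 : 1 ≤ X ^ C := Nat.one_le_pow _ _ (by omega)
  have heN : e.natAbs ≤ X ^ C := by
    have h1 : ((e.natAbs : ℕ) : ℤ) ≤ ((X ^ C : ℕ) : ℤ) := by
      rw [Int.natCast_natAbs]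
      push_cast
      exact heX
    exact_mod_cast h1
  refine ⟨?_, ?_⟩
  · intro m hm1 hm2 hne
    have hXC2 : 4 * X ^ C ≤ X ^ (C + 2) := by
      have : X ^ (C + 2) = X ^ C * (X * X) := by ring
      rw [this, mul_comm]
      apply Nat.mul_le_mul_left
      nlinarith
    constructor
    · intro hg
      constructor
      · apply few hr1 (by omega) hz hz1 (by omega) (by omega)
        intro p hp hpz hd
        apply hg p hp hpz
        unfold prodAt
        apply Dvd.dvd.mul_right
        exact_mod_cast hd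
      · apply few hr1 (by omega) hz hz1 (by simpa using hne)
        · omega
        · intro p hp hpz hd
          apply hg p hp hpz
          unfold prodAt
          apply Dvd.dvd.mul_left
          exact Int.natCast_dvd.2 hd
    · intro h1 h2 h3 h4 p hp hpz hd
      unfold prodAt at hd
      rcases (Nat.prime_iff_prime_int.1 hp).dvd_mul.1 hd with hd | hd
      · have hd' : p ∣ q * m + b := by exact_mod_cast hd
        have := (Nat.prime_dvd_prime_iff_eq hp h1).1 hd'
        omega
      · have := (Nat.prime_dvd_prime_iff_eq hp h3).1 (Int.natCast_dvd.1 hd)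
        omega
  · intro u Y hY J hJK hJ0 S hJS hS
    have hgood : Pool.Agent.R490.LZ.Good (X ^ (2 * C + 3)) (LS.sb q b (T e)) := by
      apply LS.good_sb (N := X ^ (C + 1)) hq1 (hqX.trans (Nat.pow_le_pow_right (by omega) (by omega)))
        (hbX.trans (Nat.pow_le_pow_right (by omega) (by omega)))
      · intro f hf
        unfold T at hf
        rw [mem_insert, mem_singleton] at hf
        rcases hf with rfl | rfl <;> norm_num
      · intro f hf
        have h1 : 2 ≤ X ^ (C + 1) := by
          calc 2 ≤ X := hX2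
            _ ≤ X ^ (C + 1) := Nat.le_self_pow (by omega) X
        have h2 : (2 : ℤ) ≤ ((X ^ (C + 1) : ℕ) : ℤ) := by exact_mod_cast h1
        unfold T at hf
        rw [mem_insert, mem_singleton] at hf
        rcases hf with rfl | rfl
        · show (1 : ℤ) ≤ _
          linarith
        · exact h2
      · intro f hf
        unfold T at hf
        rw [mem_insert, mem_singleton] at hf
        rcases hf with rfl | rfl
        · show |(0 : ℤ)| ≤ _
          rw [abs_zero]
          exact Nat.cast_nonneg _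
        · show |e| ≤ _
          refine heX.trans ?_
          have : X ^ C ≤ X ^ (C + 1) := Nat.pow_le_pow_right (by omega) (by omega)
          exact_mod_cast this
      · exact T_adm he
      · exact hTco
      · have e1 : X ^ (2 * C + 3) = X ^ (C + 1) * X ^ (C + 1) * X := by
          rw [← pow_add, ← pow_succ]
          congr 1
          ring
        have h0' : 1 ≤ X ^ (C + 1) := Nat.one_le_pow _ _ (by omega)
        have h1 : X ^ (C + 1) * 1 ≤ X ^ (C + 1) * X ^ (C + 1) := Nat.mul_le_mul_left _ h0'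
        have h2 : X ^ (C + 1) * X ^ (C + 1) * 2 ≤ X ^ (C + 1) * X ^ (C + 1) * X := Nat.mul_le_mul_left _ hX2
        rw [e1]
        omega
    have hnoT : Pool.Agent.R490.LZ.NoT (LS.sb q b (T e)) ((X : ℝ) ^ (1 : ℝ)) := by
      apply LS.noT_sb hq1
      · intro f hf
        unfold T at hf
        rw [mem_insert, mem_singleton] at hf
        rcases hf with rfl | rfl <;> norm_num
      · intro f hf g hg hfg
        unfold T at hf hg
        rw [mem_insert, mem_singleton] at hf hg
        rcases hf with rfl | rfl <;> rcases hg with rfl | rfl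
        · rfl
        · norm_num at hfg
        · norm_num at hfg
        · rfl
    have hcard : (LS.sb q b (T e)).card = 2 := by
      rw [LS.sb_card (by omega), T_card]
    have h := hX (LS.sb q b (T e)) hcard hgood hnoT z hz u Y hY J hJK hJ0 S hJS (by rw [V_eq he hco]; exact hS)
    rw [V_eq he hco, VJ_eq] at h
    have e3 : LS.exL (LS.sb q b (T e)) J S z u Y = Blocks e q b z J S u Y := by
      unfold LS.exL Blocks
      rw [← good_eq]
    rw [e3] at h
    exact h

end Pool.Agent.Results.MP_39a890_nt.ExactBlocks
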