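import Mathlib
import Pool.Agent.K1H50.AS.MainX

/-!
# At least `n` of the iterates `k, 2k, ..., 3nk` of `q ↦ 2 q - 1` at every scale, for almost all `k`

Let `S q = 2 q - 1`. For every `n` and `ε > 0` there is `L` such that for every interval `(u, u + H]`,
`H ≥ L`, and every length `l` there is `C` such that for every sufficiently large `X` all but at most `ε H`
of the `k` in `(u, u + H]` are such that at least `n` of the exponents `j = k, 2 k, ..., 3 n k` are good at the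
scale `X`: for some `D ≤ (log X)^C` at least `X / (log X)^C` of the `q ∈ [X / C, X]` are such that
`q, q + D, ..., q + (l - 1) D` and their images under `S^j` are all primes.
The question, for `2 q - 1` in `[N, 2 N]`, is about `j = 1` and `l = 1`.

The starting file `AlmostAllExponents` has `n = 1`, `l = 1` with `X ^ (1 - η)` in place of `X / (log X)^C`.

The theorem on classes of linear forms with the constant `18/5` (`Pool.Agent.Y827.RO`) and the density
Hales-Jewett theorem (`Pool.Agent.H602R3.DHJ`) are from the starting files.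
-/

set_option autoImplicit false

namespace Pool.Agent.Results.MP_39a890_nt.OneThirdAtEveryScale

open Finset Filter

/-- the map `q ↦ 2 q - 1` -/
def S (x : ℕ) : ℕ := 2 * x - 1

/-- the number of the `q ∈ [X / C, X]` such that `q, q + D, ..., q + (l - 1) D` and their images under `S^j`
are all primes -/
noncomputable def count (l C X D j : ℕ) : ℕ :=
  {q : ℕ | (X : ℝ) / C ≤ q ∧ q ≤ X ∧ ∀ i < l, (q + i * D).Prime ∧ (S^[j] (q + i * D)).Prime}.ncard

/-- the exponent `j` is good at the scale `X` -/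
def Good (l C X j : ℕ) : Prop :=
  ∃ D : ℕ, 1 ≤ D ∧ (D : ℝ) ≤ Real.log X ^ C ∧ (X : ℝ) / Real.log X ^ C ≤ (count l C X D j : ℝ)

theorem iter_eq (p : ℕ) (hp : 1 ≤ p) (j : ℕ) : S^[j] p = 2 ^ j * (p - 1) + 1 := by
  induction j with
  | zero => simp; omega
  | succ j ih =>
    rw [Function.iterate_succ_apply', ih]
    unfold S
    rw [pow_succ]
    have : 2 * (2 ^ j * (p - 1) + 1) = 2 ^ j * 2 * (p - 1) + 2 := by ring
    omega

open Pool.Agent.Y863.AU in
/-- the map `x ↦ 2 x - 1` -/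
def g : Af := ⟨-1, 2⟩

open Pool.Agent.Y863.AU in
theorem g_pow (j : ℕ) : (g ^ j).a = -(2 ^ j - 1) ∧ (g ^ j).d = 2 ^ j := by
  induction j with
  | zero => rw [pow_zero]; exact ⟨by rw [Af.one_a]; norm_num, by rw [Af.one_d]; norm_num⟩
  | succ j ih =>
    rw [pow_succ', Af.mul_a, Af.mul_d, ih.1, ih.2]
    constructor
    · show (-1 : ℤ) + 2 * _ = _
      ring
    · show (2 : ℤ) * _ = _
      ring

open Pool.Agent.Y863.AU in
theorem ev_eq (p : ℕ) (hp : 1 ≤ p) (j : ℕ) : ((g ^ j).ev (p : ℤ)).toNat = S^[j] p := by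
  have h : (g ^ j).ev (p : ℤ) = ((S^[j] p : ℕ) : ℤ) := by
    rw [iter_eq p hp j]
    unfold Af.ev
    rw [(g_pow j).1, (g_pow j).2]
    push_cast [Nat.cast_sub hp]
    ring
  rw [h, Int.toNat_natCast]

open Pool.Agent.Y863.AU in
theorem g_adm (k : ℕ) : (g ^ k).Adm := by
  have h : Af.Adm (g ^ k * 1) :=
    Af.adm_pow_mul Af.Adm_one (by
      unfold Af.Adm g Pool.Agent.Y863.AA.Ad
      norm_num) (by rw [one_mul, mul_one]) k
  rwa [mul_one] at h

theorem good_of {l C X k j : ℕ} (h : Pool.Agent.K1H50.AS.GdX l C X (g ^ k) j) :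
    Good l C X (j * k) := by
  obtain ⟨D, h1, h2, h3⟩ := h
  refine ⟨D, h1, h2, h3.trans ?_⟩
  rw [Nat.cast_le]
  unfold Pool.Agent.K1H50.AS.cntG count
  rw [← Set.ncard_coe_finset]
  refine Set.ncard_le_ncard ?_ ((Set.finite_le_nat X).subset fun q hq => hq.2.1)
  intro q hq
  rw [mem_coe, mem_filter, mem_Icc] at hq
  refine ⟨hq.2.1, hq.1.2, fun i hi => ?_⟩
  obtain ⟨h4, h5⟩ := hq.2.2 i hi
  refine ⟨h4, ?_⟩
  rw [← pow_mul, ev_eq _ h4.one_lt.le, mul_comm] at h5
  exact h5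

open Classical in
theorem result : ∀ (n : ℕ) (ε : ℝ), 0 < ε → ∃ L : ℕ, ∀ u H : ℕ, L ≤ H → ∀ l : ℕ,
    ∃ C : ℕ, 1 ≤ C ∧ ∃ X₀ : ℕ, ∀ X : ℕ, X₀ ≤ X →
      (((Ioc u (u + H)).filter (fun k : ℕ =>
        ((Icc 1 (3 * n)).filter (fun j => Good l C X (j * k))).card < n)).card : ℝ) ≤ ε * H := by
  intro n ε hε
  obtain ⟨L, hL⟩ := Pool.Agent.K1H50.AS.mainX n ε hε
  refine ⟨L, fun u H hH l => ?_⟩
  have hg1 : g ≠ 1 := by
    intro h
    have := congrArg Pool.Agent.Y863.AU.Af.d h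
    rw [Pool.Agent.Y863.AU.Af.one_d] at this
    exact absurd this (by decide)
  obtain ⟨C, hC, hX⟩ := hL 1 1 2 le_rfl le_rfl (by norm_num) u H (by rw [one_pow, mul_one]; exact hH)
    1 g (by rw [Pool.Agent.Y863.AU.Af.one_d]; rfl) rfl Pool.Agent.Y863.AU.Af.Adm_one
    (by have := g_adm 1; rwa [pow_one] at this) hg1 (by rw [one_mul, pow_one, mul_one]) l
  refine ⟨C, hC, ?_⟩
  obtain ⟨X₀, hX₀⟩ := eventually_atTop.1 hX
  refine ⟨X₀, fun X hX => ?_⟩
  have h := hX₀ X hX
  have hbase : (((Ioc u (u + H)).filter (fun k : ℕ => (g ^ k * 1).Adm)).card : ℝ) ≤ H := by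
    have h1 : ((Ioc u (u + H)).filter (fun k : ℕ => (g ^ k * 1).Adm)).card ≤ H := by
      refine (card_filter_le _ _).trans ?_
      rw [Nat.card_Ioc]
      omega
    exact_mod_cast h1
  refine le_trans ?_ (h.trans (mul_le_mul_of_nonneg_left hbase hε.le))
  rw [Nat.cast_le]
  apply card_le_card
  intro k hk
  obtain ⟨h4, h5⟩ := mem_filter.1 hk
  rw [mem_Ioc] at h4
  have hk1 : 1 ≤ k := by omega
  have hR : Pool.Agent.K1H50.NP.Rw n (g ^ k * 1) = 3 * n := by
    unfold Pool.Agent.K1H50.NP.Rw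
    rw [mul_one, if_neg]
    rintro ⟨h6, h7⟩
    apply h7
    rw [(g_pow k).1]
    rw [(g_pow k).2] at h6
    exact (dvd_neg).2 h6
  refine mem_filter.2 ⟨mem_Ioc.2 h4, ?_, ?_, ?_⟩
  · rw [mul_one]; exact g_adm k
  · rw [mul_one]
    intro h6
    have h7 := congrArg Pool.Agent.Y863.AU.Af.d h6
    rw [(g_pow k).2, Pool.Agent.Y863.AU.Af.one_d] at h7
    have h8 : (2 : ℤ) ^ 1 ≤ 2 ^ k := pow_le_pow_right₀ (by norm_num) hk1
    omega
  · rw [hR]
    refine lt_of_le_of_lt (card_le_card ?_) h5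
    intro j hj
    obtain ⟨h6, h7⟩ := mem_filter.1 hj
    refine mem_filter.2 ⟨h6, ?_⟩
    rw [mul_one] at h7
    exact good_of h7

end Pool.Agent.Results.MP_39a890_nt.OneThirdAtEveryScale
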