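import Pool.Agent.K1H73.LS.AP
import Pool.Agent.K1H73.LS.Fm

/-!
# Primes `n` with `2 n + e` almost prime, uniformly in `e`: asymptotics and law

For ALL odd `e` with `|e| ≤ N ^ C` (`C` arbitrary; the question is about `e = -1`), in every class modulo a fixed
squarefree `q`: the asymptotic number of the PRIMES `n` in all intervals for which `2 n + e` has no prime factor
`≤ z = N ^ (1 / r)`, and the Poisson law for the number of the good integers (`n` and `2 n + e` without prime factors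
`≤ z`) which follow such a prime.

The law after primes for finite sets of linear forms is the one of `Pool.Agent.R490.LZ` (`primeL`) of the starting
files. New here: the forms `n, 2 n + e` in progressions (`K1H73.LS.AP`: the conditions of that theorem, uniformly in
`e`, the values of the densities), and the application.
-/

set_option autoImplicit false

namespace Pool.Agent.Results.MP_39a890_nt.PrimesLaw

open Finset Filter
open Pool.Agent.K1H73

/-- the product `n (2 n + e)` -/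
def prodAt (e : ℤ) (n : ℕ) : ℤ := n * (2 * n + e)

/-- neither `n` nor `2 n + e`, where `n = q m + b`, has a prime factor `≤ z` -/
def Good (e : ℤ) (q b z m : ℕ) : Prop := ∀ l : ℕ, l.Prime → l ≤ z → ¬ (l : ℤ) ∣ prodAt e (q * m + b)

/-- the number of the classes `n` modulo the prime `l` with `l ∣ n (2 n + e)` (for odd `e`) -/
def rho (e : ℤ) (l : ℕ) : ℕ := if l = 2 ∨ (l : ℤ) ∣ e then 1 else 2

/-- the sieve product over the primes `l ≤ z` which do not divide `q` -/
noncomputable def V (e : ℤ) (q z : ℕ) : ℝ :=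
  ∏ l ∈ (Finset.range (z + 1)).filter Nat.Prime, (1 - ((if l ∣ q then 0 else rho e l : ℕ) : ℝ) / l)

/-- the same product, every factor divided by `1 - 1 / l` -/
noncomputable def W (e : ℤ) (q z : ℕ) : ℝ :=
  ∏ l ∈ (Finset.range (z + 1)).filter Nat.Prime,
    (1 - ((if l ∣ q then 0 else rho e l : ℕ) : ℝ) / l) / (1 - 1 / (l : ℝ))

open Classical in
/-- the good `m` in `(u, u + Y]` for which `n = q m + b` is PRIME -/
noncomputable def P (e : ℤ) (q b z u Y : ℕ) : Finset ℕ :=
  (Ioc u (u + Y)).filter (fun m => (q * m + b).Prime ∧ Good e q b z m)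

open Classical in
/-- the number of the good `m'` in `(m, m + T]` -/
noncomputable def Next (e : ℤ) (q b z T m : ℕ) : ℕ :=
  ((Ioc m (m + T)).filter (fun m' => Good e q b z m')).card

/-- the forms -/
def Ts (e : ℤ) : Finset (ℤ × ℤ) := {((1 : ℤ), (0 : ℤ)), ((2 : ℤ), e)}

lemma Ts_card (e : ℤ) : (Ts e).card = 2 := by
  unfold Ts
  rw [card_insert_of_notMem, card_singleton]
  rw [mem_singleton]
  intro h
  have : (1 : ℤ) = 2 := congrArg Prod.fst h
  norm_num at this

lemma Ts_iff (e : ℤ) {p : ℕ} (hp : p.Prime) (n : ℕ) :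
    (∃ f ∈ Ts e, (p : ℤ) ∣ f.1 * (n : ℤ) + f.2) ↔ (p : ℤ) ∣ prodAt e n := by
  unfold prodAt
  rw [(Nat.prime_iff_prime_int.1 hp).dvd_mul]
  unfold Ts
  constructor
  · rintro ⟨f, hf, hd⟩
    rw [mem_insert, mem_singleton] at hf
    rcases hf with rfl | rfl
    · left
      have : (p : ℤ) ∣ (1 : ℤ) * n + 0 := hd
      rwa [one_mul, add_zero] at this
    · exact Or.inr hd
  · rintro (h | h)
    · refine ⟨((1 : ℤ), (0 : ℤ)), by simp, ?_⟩
      show (p : ℤ) ∣ (1 : ℤ) * n + 0
      rwa [one_mul, add_zero]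
    · exact ⟨((2 : ℤ), e), by simp, h⟩

lemma good_eq (e : ℤ) (q b z : ℕ) : Good e q b z = Pool.Agent.R490.LZ.Ro (LS.sb q b (Ts e)) z := by
  funext m
  apply propext
  rw [LS.ro_sb]
  unfold Good Pool.Agent.R490.LZ.Ro
  constructor
  · intro h p hp hpz f hf hd
    exact h p hp hpz ((Ts_iff e hp _).1 ⟨f, hf, hd⟩)
  · intro h p hp hpz hd
    obtain ⟨f, hf, hd⟩ := (Ts_iff e hp _).2 hd
    exact h p hp hpz f hf hd

/-- the number of the zeros -/
lemma om_eq {e : ℤ} (he : Odd e) {l : ℕ} (hl : l.Prime) :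
    RDW.om (LS.GT (Ts e)) l = rho e l := by
  classical
  unfold rho
  have hlpos := hl.pos
  have key : ∀ n : ℕ, (l : ℤ) ∣ LS.GT (Ts e) n ↔ (l : ℤ) ∣ (n : ℤ) ∨ (l : ℤ) ∣ 2 * (n : ℤ) + e := by
    intro n
    rw [LS.dvd_GT hl, Ts_iff e hl]
    unfold prodAt
    exact (Nat.prime_iff_prime_int.1 hl).dvd_mul
  unfold RDW.om
  have h0 : ∀ n < l, (l : ℤ) ∣ (n : ℤ) → n = 0 := by
    intro n hn hd
    exact Nat.eq_zero_of_dvd_of_lt (by exact_mod_cast hd) hn
  split_ifs with h
  · have e1 : (range l).filter (fun n : ℕ => (l : ℤ) ∣ LS.GT (Ts e) n) = {0} := by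
      ext n
      rw [mem_filter, mem_range, mem_singleton, key]
      constructor
      · rintro ⟨h1, h2 | h2⟩
        · exact h0 n h1 h2
        · rcases h with h | h
          · subst h
            exfalso
            obtain ⟨u, hu⟩ := he
            obtain ⟨v, hv⟩ := h2
            push_cast at hv
            omega
          · have h3 : (l : ℤ) ∣ 2 * (n : ℤ) := (dvd_add_left h).1 h2
            rcases (Nat.prime_iff_prime_int.1 hl).dvd_mul.1 h3 with h4 | h4
            · have h5 : l ∣ 2 := by exact_mod_cast h4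
              have h6 : l = 2 := (Nat.prime_dvd_prime_iff_eq hl Nat.prime_two).1 h5
              exfalso
              obtain ⟨u, hu⟩ := he
              obtain ⟨v, hv⟩ := h
              rw [h6] at hv
              push_cast at hv
              omega
            · exact h0 n h1 h4
      · rintro rfl
        exact ⟨hlpos, Or.inl (by simp)⟩
    rw [e1, card_singleton]
  · push Not at h
    obtain ⟨h2, hle⟩ := h
    -- the other zero
    have hcop : IsCoprime (2 : ℤ) (l : ℤ) := by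
      have : Nat.Coprime 2 l := (Nat.coprime_primes Nat.prime_two hl).2 (fun h => h2 h.symm)
      exact_mod_cast Nat.isCoprime_iff_coprime.2 this
    obtain ⟨x, y, hxy⟩ := hcop
    have hlZ : (0 : ℤ) < l := by exact_mod_cast hlpos
    obtain ⟨n1, hn1⟩ : ∃ n1 : ℕ, (n1 : ℤ) = (-(x * e)) % l :=
      ⟨((-(x * e)) % l).toNat, Int.toNat_of_nonneg (Int.emod_nonneg _ hlZ.ne')⟩
    have hn1l : n1 < l := by
      have := Int.emod_lt_of_pos (-(x * e)) hlZ
      rw [← hn1] at this
      exact_mod_cast this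
    have hz1 : (l : ℤ) ∣ 2 * (n1 : ℤ) + e := by
      have h3 : (l : ℤ) ∣ -(x * e) - (-(x * e)) % l := Int.dvd_self_sub_emod
      rw [← hn1] at h3
      obtain ⟨v, hv⟩ := h3
      have h4 : (n1 : ℤ) = -(x * e) - l * v := by linarith
      rw [h4]
      refine ⟨y * e - 2 * v, ?_⟩
      have h5 : x * 2 = 1 - y * l := by linarith
      have : 2 * (-(x * e) - (l : ℤ) * v) + e = -((x * 2) * e) - 2 * l * v + e := by ring
      rw [this, h5]
      ring
    have hn10 : n1 ≠ 0 := by
      rintro rfl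
      apply hle
      simpa using hz1
    have e1 : (range l).filter (fun n : ℕ => (l : ℤ) ∣ LS.GT (Ts e) n) = {0, n1} := by
      ext n
      rw [mem_filter, mem_range, mem_insert, mem_singleton, key]
      constructor
      · rintro ⟨h1, h3 | h3⟩
        · exact Or.inl (h0 n h1 h3)
        · right
          have h4 : (l : ℤ) ∣ 2 * ((n : ℤ) - n1) := by
            have := dvd_sub h3 hz1
            have e2 : 2 * (n : ℤ) + e - (2 * (n1 : ℤ) + e) = 2 * ((n : ℤ) - n1) := by ring
            rwa [e2] at this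
          rcases (Nat.prime_iff_prime_int.1 hl).dvd_mul.1 h4 with h5 | h5
          · have h6 : l ∣ 2 := by exact_mod_cast h5
            exact absurd ((Nat.prime_dvd_prime_iff_eq hl Nat.prime_two).1 h6) h2
          · have h6 : (n1 : ℤ) ≡ (n : ℤ) [ZMOD (l : ℤ)] := Int.modEq_iff_dvd.2 h5
            have h7 : n1 ≡ n [MOD l] := Int.natCast_modEq_iff.1 h6
            have h8 : n1 % l = n % l := h7
            rw [Nat.mod_eq_of_lt hn1l, Nat.mod_eq_of_lt h1] at h8
            exact h8.symm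
      · rintro (rfl | rfl)
        · exact ⟨hlpos, Or.inl (by simp)⟩
        · exact ⟨hn1l, Or.inr hz1⟩
    rw [e1, card_insert_of_notMem, card_singleton]
    rw [mem_singleton]
    exact fun h => hn10 h.symm

lemma Ts_adm {e : ℤ} (he : Odd e) (p : ℕ) (hp : p.Prime) : ∃ n : ℕ, ∀ f ∈ Ts e, ¬ (p : ℤ) ∣ f.1 * n + f.2 := by
  classical
  by_contra hcon
  push Not at hcon
  have h1 : RDW.om (LS.GT (Ts e)) p = p := by
    unfold RDW.om
    rw [Finset.filter_true_of_mem, card_range]
    intro n _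
    obtain ⟨f, hf, hd⟩ := hcon n
    exact (LS.dvd_GT hp n).2 ⟨f, hf, hd⟩
  rw [om_eq he hp] at h1
  unfold rho at h1
  have h2 := hp.two_le
  split_ifs at h1 with h
  · omega
  · apply h
    left
    omega


lemma co_of {e : ℤ} {q b : ℕ} (hco : IsCoprime (prodAt e b) (q : ℤ)) :
    ∀ p : ℕ, p.Prime → p ∣ q → ∀ f ∈ Ts e, ¬ (p : ℤ) ∣ f.1 * b + f.2 := by
  intro p hp hpq f hf hd
  have h1 := (Ts_iff e hp b).1 ⟨f, hf, hd⟩
  have h2 := hco.isUnit_of_dvd' h1 (show (p : ℤ) ∣ (q : ℤ) by exact_mod_cast hpq)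
  rw [Int.isUnit_iff_natAbs_eq, Int.natAbs_natCast] at h2
  exact hp.one_lt.ne' h2

open Classical in
lemma nu_eq {e : ℤ} (he : Odd e) {q b : ℕ} (hco : IsCoprime (prodAt e b) (q : ℤ)) {l : ℕ} (hl : l.Prime) :
    ((Finset.range l).filter (fun m : ℕ => ∃ f ∈ LS.sb q b (Ts e), (l : ℤ) ∣ f.1 * m + f.2)).card =
      if l ∣ q then 0 else rho e l := by
  rw [LS.sb_nu hl (fun h => co_of hco l hl h), om_eq he hl]

lemma V_eq {e : ℤ} (he : Odd e) {q b : ℕ} (hco : IsCoprime (prodAt e b) (q : ℤ)) (z : ℕ) :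
    Pool.Agent.R490.LZ.De (LS.sb q b (Ts e)) z = V e q z := by
  classical
  unfold Pool.Agent.R490.LZ.De V
  apply Finset.prod_congr rfl
  intro l hl
  have h1 := nu_eq he hco (mem_filter.1 hl).2
  rw [← h1]

lemma W_eq {e : ℤ} (he : Odd e) {q b : ℕ} (hco : IsCoprime (prodAt e b) (q : ℤ)) (z : ℕ) :
    Pool.Agent.R490.LZ.Wr (LS.sb q b (Ts e)) z = W e q z := by
  classical
  unfold Pool.Agent.R490.LZ.Wr W
  apply Finset.prod_congr rfl
  intro l hl
  have h1 := nu_eq he hco (mem_filter.1 hl).2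
  rw [← h1]

/-- **Primes `n` with `2 n + e` almost prime, uniformly in `e`.** Let `q` be squarefree. For all `C`, `θ, δ > 0`, `x0`,
`ε > 0` there is `r0` such that for all `r ≥ r0` and all large `N`, `z = N ^ (1 / r)` (integer part), for ALL odd `e`
with `|e| ≤ N ^ C`, all `b ≤ N ^ (θ / 4)` such that `q` is prime to `b (2 b + e)`: `V, W > 0`, and for all intervals
`(u, u + Y]` with `Y ≥ δ X`, `u + Y ≤ X`, `X ≥ N ^ θ`, the number of the `m` for which `n = q m + b` is PRIME and `2 n + e`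
has no prime factor `≤ z` (and `n > z`) is `Y W / log X`, up to the factor `1 + ε`, and the number of the good `m'` which
follow such an `m` within `T` has the Poisson distribution of mean `T V ≤ x0`. -/
theorem result (C : ℕ) (q : ℕ) (hq : Squarefree q) (θ δ : ℝ) (hθ : 0 < θ) (hδ : 0 < δ)
    (hδ1 : δ ≤ 1) (x0 ε : ℝ) (hε : 0 < ε) (hε1 : ε ≤ 1) :
    ∃ r0 : ℕ, 2 ≤ r0 ∧ ∀ r : ℕ, r0 ≤ r → ∀ᶠ N : ℕ in atTop, ∀ z : ℕ, z = ⌊(N : ℝ) ^ (1 / (r : ℝ))⌋₊ →
      ∀ e : ℤ, Odd e → |e| ≤ (N : ℤ) ^ C →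
      ∀ b : ℕ, (b : ℝ) ≤ (N : ℝ) ^ (θ / 4) → b ≤ N ^ (C + 1) → IsCoprime (prodAt e b) (q : ℤ) →
        0 < V e q z ∧ 0 < W e q z ∧
        ∀ X : ℕ, (N : ℝ) ^ θ ≤ X → ∀ u Y : ℕ, δ * X ≤ Y → u + Y ≤ X →
        |((P e q b z u Y).card : ℝ) * Real.log X - Y * W e q z| ≤ ε * (Y * W e q z) ∧
        ∀ T : ℕ, T * V e q z ≤ x0 → ∀ J : Finset ℕ,
        |(((P e q b z u Y).filter (fun m => Next e q b z T m ∈ J)).card : ℝ) -
            (P e q b z u Y).card * ∑ j ∈ J, Real.exp (-(T * V e q z)) * (T * V e q z) ^ j / j.factorial| ≤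
          ε * (P e q b z u Y).card := by
  classical
  have hq1 : 1 ≤ q := Nat.pos_of_ne_zero hq.ne_zero
  obtain ⟨r0, hr0, h0⟩ := Pool.Agent.R490.LZ.primeL q 2 (2 * C + 3) hq (by omega) 1 θ δ (by norm_num) hθ hδ hδ1
    x0 ε hε hε1
  refine ⟨r0, hr0, ?_⟩
  intro r hr
  filter_upwards [h0 r hr, eventually_ge_atTop (max 2 q)] with N hN hN2
  intro z hz e he heN b hb1 hbC hco
  have hN22 : 2 ≤ N := (le_max_left _ _).trans hN2
  have hqN : q ≤ N := (le_max_right _ _).trans hN2
  have hNC1 : 1 ≤ N ^ (C + 1) := Nat.one_le_pow _ _ (by omega)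
  have hNC : N ≤ N ^ (C + 1) := Nat.le_self_pow (by omega) N
  have hT1 : ∀ f ∈ Ts e, 1 ≤ f.1 := by
    intro f hf
    unfold Ts at hf
    rw [mem_insert, mem_singleton] at hf
    rcases hf with rfl | rfl <;> norm_num
  have hgood : Pool.Agent.R490.LZ.Good (N ^ (2 * C + 3)) (LS.sb q b (Ts e)) := by
    apply LS.good_sb (N := N ^ (C + 1)) hq1 (hqN.trans hNC) hbC hT1
    · intro f hf
      have h2 : (2 : ℤ) ≤ ((N ^ (C + 1) : ℕ) : ℤ) := by exact_mod_cast hN22.trans hNC
      unfold Ts at hf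
      rw [mem_insert, mem_singleton] at hf
      rcases hf with rfl | rfl
      · show (1 : ℤ) ≤ _
        linarith
      · exact h2
    · intro f hf
      unfold Ts at hf
      rw [mem_insert, mem_singleton] at hf
      rcases hf with rfl | rfl
      · show |(0 : ℤ)| ≤ _
        rw [abs_zero]
        exact Nat.cast_nonneg _
      · show |e| ≤ _
        refine heN.trans ?_
        have : N ^ C ≤ N ^ (C + 1) := Nat.pow_le_pow_right (by omega) (by omega)
        exact_mod_cast this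
    · exact Ts_adm he
    · exact co_of hco
    · have e1 : N ^ (2 * C + 3) = N ^ (C + 1) * N ^ (C + 1) * N := by
        rw [← pow_add, ← pow_succ]
        congr 1
        ring
      have h1 : N ^ (C + 1) * 1 ≤ N ^ (C + 1) * N ^ (C + 1) := Nat.mul_le_mul_left _ hNC1
      have h2 : N ^ (C + 1) * N ^ (C + 1) * 2 ≤ N ^ (C + 1) * N ^ (C + 1) * N := Nat.mul_le_mul_left _ hN22
      rw [e1]
      omega
  have hnoT : Pool.Agent.R490.LZ.NoT (LS.sb q b (Ts e)) ((N : ℝ) ^ (1 : ℝ)) := by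
    apply LS.noT_sb hq1 hT1
    intro f hf g hg hfg
    unfold Ts at hf hg
    rw [mem_insert, mem_singleton] at hf hg
    rcases hf with rfl | rfl <;> rcases hg with rfl | rfl
    · rfl
    · norm_num at hfg
    · norm_num at hfg
    · rfl
  have hcard : (LS.sb q b (Ts e)).card = 2 := by
    rw [LS.sb_card (by omega), Ts_card]
  have hmem : ((q : ℤ), (b : ℤ)) ∈ LS.sb q b (Ts e) := by
    unfold LS.sb
    rw [mem_image]
    exact ⟨((1 : ℤ), (0 : ℤ)), mem_insert_self _ _, by simp⟩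
  have hdv : ∀ p : ℕ, p.Prime → p ∣ q → ∀ l ∈ LS.sb q b (Ts e), (p : ℤ) ∣ l.1 := by
    intro p _ hpq l hl
    obtain ⟨f, _, rfl⟩ := mem_image.1 hl
    show (p : ℤ) ∣ f.1 * (q : ℤ)
    apply Dvd.dvd.mul_left
    exact_mod_cast hpq
  have h := hN (LS.sb q b (Ts e)) b hcard hmem hb1 hdv hgood hnoT z hz
  rw [W_eq he hco, V_eq he hco] at h
  have hPr : ∀ u Y : ℕ, Pool.Agent.R490.LZ.Pr q b (LS.sb q b (Ts e)) z u Y = P e q b z u Y := by
    intro u Y
    unfold Pool.Agent.R490.LZ.Pr P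
    rw [good_eq]
  have hNx : ∀ T m : ℕ, Pool.Agent.R490.LZ.Nx (LS.sb q b (Ts e)) z T m = Next e q b z T m := by
    intro T m
    unfold Pool.Agent.R490.LZ.Nx Next
    rw [good_eq]
  refine ⟨?_, h.1, ?_⟩
  · rw [← V_eq he hco, Pool.Agent.R490.LZ.De]
    apply Finset.prod_pos
    intro p hp
    have hpp := (mem_filter.1 hp).2
    have hp0 : (0 : ℝ) < p := by exact_mod_cast hpp.pos
    rw [sub_pos, div_lt_one hp0]
    obtain ⟨m, hm⟩ := hgood.adm p hpp
    have h1 : (Finset.range p).filter (fun m : ℕ => ∃ l ∈ LS.sb q b (Ts e), (p : ℤ) ∣ l.1 * m + l.2) ⊂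
        Finset.range p := by
      rw [ssubset_iff_subset_ne]
      refine ⟨filter_subset _ _, fun h2 => ?_⟩
      have h3 : m % p ∈ Finset.range p := mem_range.2 (Nat.mod_lt _ hpp.pos)
      rw [← h2, mem_filter] at h3
      obtain ⟨_, l, hl, hd⟩ := h3
      apply hm l hl
      rw [LS.per p l m (m % p) (LS.sub_mod p m)]
      exact hd
    have h2 := card_lt_card h1
    rw [card_range] at h2
    exact_mod_cast h2
  · intro X hX u Y hY huY
    obtain ⟨k1, k2⟩ := h.2 X hX u Y hY huY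
    rw [hPr] at k1 k2
    refine ⟨k1, ?_⟩
    intro T hT J
    have k3 := k2 T hT J
    simp only [hNx] at k3
    exact k3

end Pool.Agent.Results.MP_39a890_nt.PrimesLaw
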